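import Pool.Agent.H136R4.Stmts

/-!
# An injective enumeration of a dense subset of the disc
-/

namespace Pool.Agent.H839R3.Adm

open Pool.Agent.H136R4

theorem admStmt : AdmStmt := by
  classical
  obtain ⟨D, hDc, hDd⟩ := TopologicalSpace.exists_countable_dense ℂ
  let S : Set ℂ := (D ∩ Metric.ball 0 1) ∪ {0}
  have hSc : S.Countable := (hDc.mono Set.inter_subset_left).union (Set.countable_singleton 0)
  have hball : ∀ x ∈ S, ‖x‖ < 1 := by
    rintro x (⟨_, hx⟩ | hx)
    · simpa using hx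
    · rw [Set.mem_singleton_iff.1 hx]
      simp
  -- density
  have hdense : ∀ x : ℂ, ‖x‖ ≤ 1 → ∀ e : ℝ, 0 < e → ∃ y ∈ S, ‖x - y‖ < e := by
    intro x hx e he
    -- move `x` inside
    obtain ⟨t, ht0, ht1, hte⟩ : ∃ t : ℝ, 0 < t ∧ t < 1 ∧ t < e := by
      refine ⟨min (1 / 2) (e / 2), by positivity, ?_, ?_⟩
      · exact lt_of_le_of_lt (min_le_left _ _) (by norm_num)
      · exact lt_of_le_of_lt (min_le_right _ _) (by linarith)
    let x' : ℂ := ((1 - t / 2 : ℝ) : ℂ) * x
    have h1 : ‖x'‖ < 1 := by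
      change ‖((1 - t / 2 : ℝ) : ℂ) * x‖ < 1
      rw [norm_mul, Complex.norm_real, Real.norm_eq_abs, abs_of_pos (by linarith)]
      nlinarith [norm_nonneg x]
    have h2 : ‖x - x'‖ ≤ t / 2 := by
      have h3 : x - x' = ((t / 2 : ℝ) : ℂ) * x := by
        change x - ((1 - t / 2 : ℝ) : ℂ) * x = _
        push_cast
        ring
      rw [h3, norm_mul, Complex.norm_real, Real.norm_eq_abs, abs_of_pos (by linarith)]
      nlinarith [norm_nonneg x]
    have ho : IsOpen (Metric.ball x' (t / 2) ∩ Metric.ball (0 : ℂ) 1) :=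
      Metric.isOpen_ball.inter Metric.isOpen_ball
    have hne : (Metric.ball x' (t / 2) ∩ Metric.ball (0 : ℂ) 1).Nonempty :=
      ⟨x', Metric.mem_ball_self (by linarith), by simpa using h1⟩
    obtain ⟨y, hy, hyD⟩ := hDd.inter_open_nonempty _ ho hne
    refine ⟨y, Or.inl ⟨hyD, hy.2⟩, ?_⟩
    have h4 : ‖x' - y‖ < t / 2 := by
      have := hy.1
      rw [Metric.mem_ball, dist_comm, dist_eq_norm] at this
      exact this
    calc ‖x - y‖ = ‖(x - x') + (x' - y)‖ := by ring_nf
      _ ≤ ‖x - x'‖ + ‖x' - y‖ := norm_add_le _ _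
      _ < e := by linarith
  have hSinf : S.Infinite := by
    intro hf
    -- a finite set is closed, and its closure contains the ball
    have h1 : Metric.closedBall (0 : ℂ) 1 ⊆ S := by
      intro x hx
      have h2 : x ∈ closure S := by
        rw [Metric.mem_closure_iff]
        intro e he
        obtain ⟨y, hy, h3⟩ := hdense x (by simpa using hx) e he
        exact ⟨y, hy, by rwa [dist_eq_norm]⟩
      rwa [hf.isClosed.closure_eq] at h2
    have h3 : (Metric.closedBall (0 : ℂ) 1).Finite := hf.subset h1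
    have h4 : (Set.range fun n : ℕ => ((1 / (n + 1 : ℝ) : ℝ) : ℂ)).Infinite := by
      refine Set.infinite_range_of_injective fun m n h => ?_
      have h5 : (1 / (m + 1 : ℝ) : ℝ) = 1 / (n + 1 : ℝ) := Complex.ofReal_injective h
      have hm : (0 : ℝ) < m + 1 := by positivity
      have hn : (0 : ℝ) < n + 1 := by positivity
      field_simp at h5
      have h6 : (n : ℝ) = m := by linarith
      exact_mod_cast h6.symm
    refine h4 (h3.subset ?_)
    rintro _ ⟨n, rfl⟩
    rw [mem_closedBall_zero_iff, Complex.norm_real, Real.norm_eq_abs, abs_of_pos (by positivity)]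
    rw [div_le_one (by positivity)]
    have : (0 : ℝ) ≤ n := Nat.cast_nonneg n
    linarith
  have := hSinf.to_subtype
  have := hSc.to_subtype
  obtain ⟨d⟩ := nonempty_denumerable S
  let b : ℕ ≃ S := (Denumerable.eqv S).symm
  have h0 : (0 : ℂ) ∈ S := Or.inr rfl
  let c : ℕ ≃ S := (Equiv.swap 0 (b.symm ⟨0, h0⟩)).trans b
  refine ⟨fun n => (c n).1, ?_, ?_, fun k => hball _ (c k).2, fun x hx e he => ?_⟩
  · change (b (Equiv.swap 0 (b.symm ⟨0, h0⟩) 0)).1 = 0
    rw [Equiv.swap_apply_left, Equiv.apply_symm_apply]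
  · intro m n h
    exact c.injective (Subtype.ext h)
  · obtain ⟨y, hy, h1⟩ := hdense x hx e he
    refine ⟨c.symm ⟨y, hy⟩, ?_⟩
    simp only [Equiv.apply_symm_apply]
    exact h1

end Pool.Agent.H839R3.Adm
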